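import Mathlib
import Pool.Agent.R91.NotCyc

set_option autoImplicit false

/-!
# MP_26ecb3_co: `φ_±(ℤ_2 × ℤ_24, [0,5]) = 2`, so the conjectured list `L` is not complete
-/

namespace Pool.Agent.Results.MP_26ecb3_co.CounterexampleFive

/-- `A` is `s`-spanning in the abelian group `G`: every element is a sum `∑ c a • a` with integer
coefficients satisfying `∑ |c a| ≤ s`. -/
def Spans {G : Type} [AddCommGroup G] (s : ℕ) (A : Finset G) : Prop :=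
  ∀ g : G, ∃ c : G → ℤ, ∑ a ∈ A, |c a| ≤ (s : ℤ) ∧ ∑ a ∈ A, c a • a = g

/-- `φ_±(G,[0,s])`: the least size of an `s`-spanning subset of `G`. -/
noncomputable def phi (G : Type) [AddCommGroup G] (s : ℕ) : ℕ :=
  sInf {m : ℕ | ∃ A : Finset G, A.card = m ∧ Spans s A}

/-- The set `L` of pairs `(s,k)` of positive integers of the problem. -/
def InL (s k : ℕ) : Prop :=
  (s = 2 ∧ (k = 1 ∨ k = 2)) ∨
  (s = 3 ∧ (k = 1 ∨ k = 2 ∨ k = 3 ∨ k = 4)) ∨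
  (s = 4 ∧ (k = 1 ∨ k = 2 ∨ k = 3 ∨ k = 4 ∨ k = 5 ∨ k = 6 ∨ k = 8)) ∨
  (5 ≤ s ∧ 1 ≤ k ∧ (k : ℤ) ≤ 3 * s - 4)

set_option maxRecDepth 100000 in
theorem span_dec : ∀ g : ZMod 2 × ZMod 24, ∃ x : Fin 11, ∃ y : Fin 11,
    |((x : ℕ) : ℤ) - 5| + |((y : ℕ) : ℤ) - 5| ≤ 5 ∧
    (((x : ℕ) : ℤ) - 5) • ((1, 2) : ZMod 2 × ZMod 24) +
      (((y : ℕ) : ℤ) - 5) • ((1, 3) : ZMod 2 × ZMod 24) = g := by
  decide

theorem spans : Spans 5 ({(1, 2), (1, 3)} : Finset (ZMod 2 × ZMod 24)) := by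
  intro g
  obtain ⟨x, y, h1, h2⟩ := span_dec g
  have hne : ((1, 2) : ZMod 2 × ZMod 24) ≠ (1, 3) := by decide
  refine ⟨fun a => if a = (1, 2) then ((x : ℕ) : ℤ) - 5 else ((y : ℕ) : ℤ) - 5, ?_, ?_⟩
  · rw [Finset.sum_pair hne]
    simpa [hne.symm] using h1
  · rw [Finset.sum_pair hne]
    simpa [hne.symm] using h2

/-- **Theorem.** The conjecture of Q1 is false: for `s = 5` and `k = 12`, which is not in `L`,
one has `φ_±(ℤ_2 × ℤ_{2k}, [0,s]) = 2`. -/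
theorem result : ∃ s k : ℕ, 0 < s ∧ 0 < k ∧ ¬ InL s k ∧ phi (ZMod 2 × ZMod (2 * k)) s = 2 := by
  refine ⟨5, 12, by norm_num, by norm_num, ?_, ?_⟩
  · unfold InL
    norm_num
  · change phi (ZMod 2 × ZMod 24) 5 = 2
    have hmem : 2 ∈ {m : ℕ | ∃ A : Finset (ZMod 2 × ZMod 24), A.card = m ∧ Spans 5 A} :=
      ⟨{(1, 2), (1, 3)}, by decide, spans⟩
    apply le_antisymm
    · exact Nat.sInf_le hmem
    · apply le_csInf ⟨_, hmem⟩
      rintro m ⟨A, rfl, hA⟩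
      apply Pool.Agent.R91.two_le_card (le_refl 2) (by norm_num) (by norm_num) A
      intro g
      obtain ⟨c, -, hc⟩ := hA g
      exact ⟨c, hc⟩

end Pool.Agent.Results.MP_26ecb3_co.CounterexampleFive
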